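import Pool.Agent.W973.CES.Defs

/-!
# Project CES, part INT: matchings without exchanging pairs are internal to the gadgets
-/

set_option autoImplicit false

namespace Pool.Agent.W853.CES

open Pool.Agent.W973.CES Pool.Agent.NPC

theorem lt_of {t : List ℕ} {y z : ℕ} (hz : z ∉ t) (h : y ∈ t ∨ y < z) : Lt t y z := by
  unfold Lt
  rw [List.idxOf_eq_length hz]
  by_cases hy : y ∈ t
  · exact Or.inl (List.idxOf_lt_length_of_mem hy)
  · right
    exact ⟨List.idxOf_eq_length hy, h.resolve_left hy⟩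

theorem mem_topM {φ : CNF} {x w : ℕ} (h : w / 2 = x / 2) : w ∈ topM φ x := by
  have h2 : w = 2 * (x / 2) ∨ w = 2 * (x / 2) + 1 := by omega
  unfold topM
  split_ifs
  · rcases h2 with h2 | h2
    · rw [h2]; simp
    · rw [h2]; simp
  · rcases h2 with h2 | h2
    · rw [h2]; simp
    · rw [h2]; simp

theorem of_mem_topM {φ : CNF} {x w : ℕ} (h : w ∈ topM φ x) :
    w / 2 = x / 2 ∨ (x / 2 < n3 φ ∧ w = 2 * nx (x / 2) + 1) := by
  unfold topM at h
  split_ifs at h with h1
  · simp only [List.mem_cons, List.not_mem_nil, or_false] at h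
    rcases h with h | h | h
    · left; omega
    · right; exact ⟨h1.2, h⟩
    · left; omega
  · simp only [List.mem_cons, List.not_mem_nil, or_false] at h
    left
    omega

theorem mem_topW {φ : CNF} {x w : ℕ} (h : w / 2 = x / 2) : w ∈ topW φ x := by
  have h2 : w = 2 * (x / 2) ∨ w = 2 * (x / 2) + 1 := by omega
  unfold topW
  split_ifs
  · rcases h2 with h2 | h2
    · rw [h2]; simp
    · rw [h2]; simp
  · rcases h2 with h2 | h2
    · rw [h2]; simp
    · rw [h2]; simp
  · rcases h2 with h2 | h2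
    · rw [h2]; simp
    · rw [h2]; simp

theorem of_mem_topW {φ : CNF} {x w : ℕ} (hx : x / 2 < n3 φ) (h : w ∈ topW φ x) :
    w / 2 = x / 2 ∨ w = 2 * vr φ (x / 2) + 1 := by
  unfold topW at h
  rw [if_pos hx] at h
  split_ifs at h with h1
  · simp only [List.mem_cons, List.not_mem_nil, or_false] at h
    left
    omega
  · simp only [List.mem_cons, List.not_mem_nil, or_false] at h
    rcases h with h | h | h
    · left; omega
    · right; exact h
    · left; omega

theorem IsM.symm' {n : ℕ} {f g : ℕ → ℕ} (h : IsM n f g) : IsM n g f :=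
  ⟨h.gl, h.fl, h.fg, h.gf⟩

theorem other {n : ℕ} {f g : ℕ → ℕ} (h : IsM n f g) (i b : ℕ) (hi : 2 * i + 1 < n) (hb : b / 2 = i)
    (hgb : g b / 2 ≠ i) : ∃ x, x / 2 = i ∧ x < n ∧ f x / 2 ≠ i := by
  by_contra hcon
  push Not at hcon
  have h1 := hcon (2 * i) (by omega) (by omega)
  have h2 := hcon (2 * i + 1) (by omega) (by omega)
  have g1 := h.gf (2 * i) (by omega)
  have g2 := h.gf (2 * i + 1) (by omega)
  have h3 : f (2 * i) ≠ b := by
    intro e
    rw [e] at g1
    omega
  have h4 : f (2 * i + 1) ≠ b := by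
    intro e
    rw [e] at g2
    omega
  have h5 : f (2 * i) = f (2 * i + 1) := by omega
  rw [h5] at g1
  omega

theorem int (h : S_TOP) : S_INT := by
  intro φ f g hM hm hw
  obtain ⟨-, hv, -⟩ := h φ
  by_contra hcon
  push Not at hcon
  obtain ⟨x0, hx0, hne0⟩ := hcon
  have hNN : NN φ = 4 * n3 φ := rfl
  let S : Finset ℕ := (Finset.range (NN φ)).filter fun x => f x / 2 ≠ x / 2
  have hS : S.Nonempty := ⟨x0, Finset.mem_filter.mpr ⟨Finset.mem_range.mpr hx0, hne0⟩⟩
  obtain ⟨x1, hx1, hmax⟩ := S.exists_max_image (fun x => max (x / 2) (f x / 2)) hS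
  obtain ⟨hx1n, hx1ne⟩ := Finset.mem_filter.mp hx1
  rw [Finset.mem_range] at hx1n
  have hfx1 := hM.fl x1 hx1n
  obtain ⟨i, hi⟩ : ∃ i, i = max (x1 / 2) (f x1 / 2) := ⟨_, rfl⟩
  have hmax' : ∀ x < NN φ, f x / 2 ≠ x / 2 → x / 2 ≤ i ∧ f x / 2 ≤ i := by
    intro x hx hne
    have h1 : max (x / 2) (f x / 2) ≤ max (x1 / 2) (f x1 / 2) :=
      hmax x (Finset.mem_filter.mpr ⟨Finset.mem_range.mpr hx, hne⟩)
    rw [← hi] at h1
    exact ⟨(le_max_left _ _).trans h1, (le_max_right _ _).trans h1⟩
  have hin : 2 * i + 1 < NN φ := by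
    rcases max_choice (x1 / 2) (f x1 / 2) with h1 | h1 <;> rw [h1] at hi <;> omega
  have hex : (∃ x, x / 2 = i ∧ x < NN φ ∧ f x / 2 ≠ i) ∧
      ∃ b, b / 2 = i ∧ b < NN φ ∧ g b / 2 ≠ i := by
    rcases max_choice (x1 / 2) (f x1 / 2) with h1 | h1
    · rw [h1] at hi
      refine ⟨⟨x1, hi.symm, hx1n, by omega⟩, ?_⟩
      exact other (IsM.symm' hM) i x1 hin hi.symm (by omega)
    · rw [h1] at hi
      have h2 : g (f x1) / 2 ≠ i := by
        rw [hM.gf x1 hx1n]
        omega
      exact ⟨other hM i (f x1) hin hi.symm h2, f x1, hi.symm, hfx1, h2⟩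
  obtain ⟨⟨x, hxi, hxn, hxf⟩, b, hbi, hbn, hbg⟩ := hex
  have hz := hmax' x hxn (by omega)
  have hfgb := hM.fg b hbn
  have hyn := hM.gl b hbn
  have hy := hmax' (g b) hyn (by rw [hfgb]; omega)
  have hzn := hM.fl x hxn
  have hgfx := hM.gf x hxn
  by_cases hcase : n3 φ ≤ i
  · apply hm x hxn (g b) hyn
    rw [hfgb]
    constructor
    · apply lt_of
      · intro hmem
        rcases of_mem_topM hmem with h1 | ⟨h1, -⟩ <;> omega
      · exact Or.inl (mem_topM (by omega))
    · apply lt_of
      · intro hmem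
        rcases of_mem_topM hmem with h1 | ⟨h1, h2⟩
        · omega
        · have h3 := (hv _ h1).2.2.1
          omega
      · right
        omega
  · push Not at hcase
    apply hw b hbn (f x) hzn
    rw [hgfx]
    constructor
    · apply lt_of
      · intro hmem
        rcases of_mem_topW (by omega) hmem with h1 | h1
        · omega
        · have h3 := (hv (b / 2) (by omega)).1
          omega
      · exact Or.inl (mem_topW (by omega))
    · apply lt_of
      · intro hmem
        rcases of_mem_topW (by omega) hmem with h1 | h1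
        · omega
        · have h3 := (hv (f x / 2) (by omega)).1
          omega
      · right
        omega

end Pool.Agent.W853.CES
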